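import Pool.Agent.N659.HB.Stm10
import Pool.Agent.N935.SD.OG

/-!
S_OGU: the mean of the square of the resolvent, general law (project SN of helper659; adaptation of
the proof of helper935).
-/

set_option autoImplicit false

namespace Pool.Agent.N371.SN.OGU

open MeasureTheory Filter Pool.Agent.W792.LL Pool.Agent.W792.WA Pool.Agent.N659.HB
open scoped Topology ENNReal

theorem main : S_GR → S_RK → S_KB2U → S_OGU := by
  intro hGR hRK hKB2 d A C c
  obtain ⟨C', γ₀, hC, hγ₀, hK⟩ := hKB2 d A C c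
  refine ⟨C', γ₀, hC, hγ₀, ?_⟩
  intro μ _ w y₀ hU γ hγ hγγ ζ hre hy him2 u u'
  have him : 0 < ζ.im := hU.hy.trans_le hy
  have hw : 0 < w := by linarith [hU.hA, hU.hw]
  have hgr := hGR d w ζ.im (xs d γ ζ) hw.le him (by
    intro k
    show (((γ * lap d k : ℝ) : ℂ) - ζ).im ≤ -ζ.im
    simp)
  obtain ⟨-, -, -, hsym, -⟩ := hRK d w γ ζ hw hγ.le him
  refine Pool.Agent.N935.SD.OG.gen (Pn μ (Fin d → ℤ)) (fun v => gr w (xs d γ ζ) v) (1 / ζ.im)
    (C' * ζ.im ^ (-(3 / 4) : ℝ)) (by positivity)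
    (mul_nonneg (by linarith) (Real.rpow_nonneg him.le _))
    (fun v => (hgr.1 v).2.2) hgr.2 ?_ ?_ u u'
  · intro v x y
    exact (hsym v x y).1
  · intro a
    exact hK μ w y₀ hU γ hγ hγγ ζ hre hy him2 a

end Pool.Agent.N371.SN.OGU
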